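import Pool.Agent.Helper98.EX.Stmts3

/-!
# MP_157eb8_pr: the environment is good with high probability
-/

set_option autoImplicit false

namespace Pool.Agent.Helper98.EX

open Finset MeasureTheory ProbabilityTheory Filter
open scoped Topology

/-- mirrored resistance ratios -/
theorem env_RR_mirr {N : ℕ} (r l : ℕ → ℝ) {z x : ℕ} (hx : x < N) (hz : z ≤ x) :
    RR (mirr N r) (mirr N l) z x = RR r l (N - 1 - x) (N - 1 - z) := by
  unfold RR mirr
  refine Finset.prod_nbij' (fun b => N - b) (fun b => N - b) ?_ ?_ ?_ ?_ ?_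
  · intro b hb
    rw [Finset.mem_Ioc] at hb ⊢
    omega
  · intro b hb
    rw [Finset.mem_Ioc] at hb ⊢
    omega
  · intro b hb
    rw [Finset.mem_Ioc] at hb
    omega
  · intro b hb
    rw [Finset.mem_Ioc] at hb
    omega
  · intro b _
    rfl

theorem env_atl_le {r l : ℕ → ℝ} {η0 v : ℝ} {w y : ℕ} (hη : 0 < η0) (hv : 0 ≤ v)
    (h : ∀ d, d < w → d ≤ y → RR r l (y - d) y / r (y + 1) ≤ v) :
    atl r l η0 w y ≤ w * (1 + η0) ^ w * v := by
  unfold atl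
  have h1 : ∀ d ∈ Finset.range (min w (y + 1)),
      (1 + η0) ^ (d + 1) * RR r l (y - d) y / r (y + 1) ≤ (1 + η0) ^ w * v := by
    intro d hd
    rw [Finset.mem_range, lt_min_iff] at hd
    have h2 := h d hd.1 (by omega)
    rw [mul_div_assoc]
    calc (1 + η0) ^ (d + 1) * (RR r l (y - d) y / r (y + 1))
        ≤ (1 + η0) ^ (d + 1) * v := mul_le_mul_of_nonneg_left h2 (by positivity)
      _ ≤ (1 + η0) ^ w * v :=
        mul_le_mul_of_nonneg_right (pow_le_pow_right₀ (by linarith) (by omega)) hv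
  refine le_trans (Finset.sum_le_sum h1) ?_
  rw [Finset.sum_const, Finset.card_range, nsmul_eq_mul, mul_assoc]
  refine mul_le_mul_of_nonneg_right ?_ (by positivity)
  exact_mod_cast min_le_left _ _

/-- the value of a window -/
noncomputable def env_f {Ω : Type} (X : ℕ → Ω → ℝ) (ω : Ω) (p : ℕ × ℕ) : ℝ :=
  max (RR (rE (EE X ω)) (lE (EE X ω)) p.1 p.2 / X p.2 ω)
    (if 1 ≤ p.1 then RR (rE (EE X ω)) (lE (EE X ω)) p.1 p.2 / X (p.1 - 1) ω else 0)

theorem env_RR_nonneg {Ω : Type} (X : ℕ → Ω → ℝ) (ω : Ω) (hr : ∀ x, 0 < X x ω ∧ X x ω ≤ 1)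
    (z x : ℕ) : 0 ≤ RR (rE (EE X ω)) (lE (EE X ω)) z x := by
  unfold RR
  refine Finset.prod_nonneg fun b _ => div_nonneg ?_ (hr (b - 1)).1.le
  have := (hr b).2
  simp only [lE, EE]
  linarith

theorem env_WV {Ω : Type} (X : ℕ → Ω → ℝ) (ω : Ω) (hr : ∀ x, 0 < X x ω ∧ X x ω ≤ 1)
    (p : ℕ × ℕ) : WV X ω p.1 p.2 (env_f X ω p) := by
  unfold WV env_f
  by_cases h1 : 1 ≤ p.1
  · rw [if_pos h1]
    rcases le_total (RR (rE (EE X ω)) (lE (EE X ω)) p.1 p.2 / X p.2 ω)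
      (RR (rE (EE X ω)) (lE (EE X ω)) p.1 p.2 / X (p.1 - 1) ω) with h | h
    · right
      exact ⟨h1, by rw [max_eq_right h]⟩
    · left
      rw [max_eq_left h]
  · left
    rw [if_neg h1, max_eq_left]
    exact div_nonneg (env_RR_nonneg X ω hr _ _) (hr _).1.le

theorem env_WV_mono {Ω : Type} (X : ℕ → Ω → ℝ) (ω : Ω) (z y : ℕ) (v v' : ℝ) (h : v ≤ v')
    (hv : WV X ω z y v') : WV X ω z y v := by
  rcases hv with h1 | ⟨h1, h2⟩
  · exact Or.inl (le_trans h h1)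
  · exact Or.inr ⟨h1, le_trans h h2⟩

theorem env_det {Ω : Type} (X : ℕ → Ω → ℝ) (ω : Ω) (hr : ∀ x, 0 < X x ω ∧ X x ω ≤ 1)
    (N w : ℕ) (η0 γ q c2 : ℝ) (hN : 1 ≤ N) (hw : 1 ≤ w) (hη : 0 < η0) (hγ : 0 < γ)
    (hγ' : 5 * γ ≤ 1 / 2) (hq : 3 / 4 * q ≤ 1 / 2 - 4 * γ)
    (hwη : (w : ℝ) * (1 + η0) ^ w ≤ (N : ℝ) ^ γ)
    (hmax : ¬ ∃ z y, z ≤ y ∧ y < N ∧ WV X ω z y ((N : ℝ) ^ q))
    (hex : ¬ ∃ (z y : ℕ) (v : ℝ), z ≤ y ∧ y < z + w ∧ y < N ∧ WV X ω z y v ∧ (N : ℝ) ^ γ < v ∧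
      ¬ ∃ A B : ℕ, c2 * N ≤ A ∧ A ≤ B ∧ B < A + w ∧ (B : ℝ) + 1 ≤ (1 - c2) * N ∧ WV X ω A B v) :
    ∃ as : ℝ, 1 ≤ as ∧ (∀ y, y + 1 < N → atl (rE (EE X ω)) (lE (EE X ω)) η0 w y ≤ as) ∧
      (∀ y, y + 1 < N → atl (mirr N (rE (EE X ω))) (mirr N (lE (EE X ω))) η0 w y ≤ as) ∧
      ((N : ℝ) ^ (3 * γ) * as ≤ (N : ℝ) ^ (1 / 2 : ℝ) ∨
        ∃ (A B : ℕ) (a : ℝ), c2 * N ≤ A ∧ A ≤ B ∧ B < A + w ∧ (B : ℝ) + 1 ≤ (1 - c2) * N ∧ 0 < a ∧
          (a ≤ RR (rE (EE X ω)) (lE (EE X ω)) A B / rE (EE X ω) (B + 1) ∨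
            a ≤ RR (rE (EE X ω)) (lE (EE X ω)) A B / rE (EE X ω) A) ∧
          (N : ℝ) ^ (3 * γ) * as ≤ (N : ℝ) ^ (1 / 2 : ℝ) * a ^ (1 / 4 : ℝ)) := by
  classical
  have hN1 : (1 : ℝ) ≤ N := by exact_mod_cast hN
  have hN0 : (0 : ℝ) < N := by linarith
  let F : Finset (ℕ × ℕ) := ((Finset.range N) ×ˢ (Finset.range N)).filter
    (fun p => p.1 ≤ p.2 ∧ p.2 < p.1 + w)
  have hF : ∀ p : ℕ × ℕ, p ∈ F ↔ (p.1 < N ∧ p.2 < N) ∧ p.1 ≤ p.2 ∧ p.2 < p.1 + w := by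
    intro p
    simp only [F, Finset.mem_filter, Finset.mem_product, Finset.mem_range]
  have hne : F.Nonempty := ⟨(0, 0), by rw [hF]; simp only; omega⟩
  obtain ⟨p, hp, hpm⟩ := F.exists_max_image (env_f X ω) hne
  rw [hF] at hp
  obtain ⟨v, hv⟩ : ∃ v : ℝ, v = max 1 (env_f X ω p) := ⟨_, rfl⟩
  have hv1 : 1 ≤ v := by rw [hv]; exact le_max_left _ _
  have hv0 : 0 ≤ v := by linarith
  have hfv : ∀ z y : ℕ, z ≤ y → y < z + w → y < N →
      RR (rE (EE X ω)) (lE (EE X ω)) z y / X y ω ≤ v ∧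
      (1 ≤ z → RR (rE (EE X ω)) (lE (EE X ω)) z y / X (z - 1) ω ≤ v) := by
    intro z y h1 h2 h3
    have h4 := hpm (z, y) (by rw [hF]; simp only; omega)
    have h5 : env_f X ω (z, y) ≤ v := by
      rw [hv]
      exact le_trans h4 (le_max_right _ _)
    refine ⟨le_trans (le_max_left _ _) h5, fun hz => ?_⟩
    refine le_trans ?_ h5
    unfold env_f
    simp only
    rw [if_pos hz]
    exact le_max_right _ _
  have hwp : (1 : ℝ) ≤ w * (1 + η0) ^ w := by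
    have h1 : (1 : ℝ) ≤ w := by exact_mod_cast hw
    have h2 : (1 : ℝ) ≤ (1 + η0) ^ w := one_le_pow₀ (by linarith)
    nlinarith
  refine ⟨w * (1 + η0) ^ w * v, ?_, ?_, ?_, ?_⟩
  · nlinarith
  · intro y hy
    refine env_atl_le hη hv0 fun d hd hdy => ?_
    have := (hfv (y - d) y (by omega) (by omega) (by omega)).1
    simpa only [rE, EE, Nat.add_sub_cancel] using this
  · intro y hy
    refine env_atl_le hη hv0 fun d hd hdy => ?_
    rw [env_RR_mirr _ _ (by omega) (by omega)]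
    have h1 := (hfv (N - 1 - y) (N - 1 - (y - d)) (by omega) (by omega) (by omega)).2 (by omega)
    have h2 : mirr N (rE (EE X ω)) (y + 1) = X (N - 1 - y - 1) ω := by
      simp only [mirr, rE, EE]
      congr 1
      omega
    rw [h2]
    exact h1
  · have has : w * (1 + η0) ^ w * v ≤ (N : ℝ) ^ γ * v := mul_le_mul_of_nonneg_right hwη hv0
    rcases le_or_gt (env_f X ω p) ((N : ℝ) ^ γ) with hcase | hcase
    · left
      have hvγ : v ≤ (N : ℝ) ^ γ := by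
        rw [hv]
        exact max_le (Real.one_le_rpow hN1 hγ.le) hcase
      calc (N : ℝ) ^ (3 * γ) * (w * (1 + η0) ^ w * v)
          ≤ (N : ℝ) ^ (3 * γ) * ((N : ℝ) ^ γ * (N : ℝ) ^ γ) := by
            refine mul_le_mul_of_nonneg_left ?_ (by positivity)
            exact le_trans has (mul_le_mul_of_nonneg_left hvγ (by positivity))
        _ = (N : ℝ) ^ (5 * γ) := by
            rw [← Real.rpow_add hN0, ← Real.rpow_add hN0]
            congr 1
            ring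
        _ ≤ (N : ℝ) ^ (1 / 2 : ℝ) := Real.rpow_le_rpow_of_exponent_le hN1 hγ'
    · right
      have hve : v = env_f X ω p := by
        rw [hv]
        refine max_eq_right ?_
        exact le_trans (Real.one_le_rpow hN1 hγ.le) hcase.le
      have hWV : WV X ω p.1 p.2 v := by
        rw [hve]
        exact env_WV X ω hr p
      have hγv : (N : ℝ) ^ γ < v := by rw [hve]; exact hcase
      obtain ⟨A, B, hA, hAB, hBw, hB, hWV'⟩ : ∃ A B : ℕ, c2 * N ≤ A ∧ A ≤ B ∧ B < A + w ∧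
          (B : ℝ) + 1 ≤ (1 - c2) * N ∧ WV X ω A B v := by
        by_contra hcon
        exact hex ⟨p.1, p.2, v, hp.2.1, hp.2.2, hp.1.2, hWV, hγv, hcon⟩
      have hvq : v < (N : ℝ) ^ q := by
        by_contra hcon
        push Not at hcon
        exact hmax ⟨p.1, p.2, hp.2.1, hp.1.2, env_WV_mono X ω _ _ _ _ hcon hWV⟩
      have hv00 : 0 < v := by linarith
      refine ⟨A, B, v, hA, hAB, hBw, hB, hv00, ?_, ?_⟩
      · rcases hWV' with h | ⟨-, h⟩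
        · left
          simpa only [rE, EE, Nat.add_sub_cancel] using h
        · right
          simpa only [rE, EE] using h
      · have h1 : v = v ^ (3 / 4 : ℝ) * v ^ (1 / 4 : ℝ) := by
          rw [← Real.rpow_add hv00]
          norm_num
        have h2 : v ^ (3 / 4 : ℝ) ≤ (N : ℝ) ^ (1 / 2 - 4 * γ) := by
          calc v ^ (3 / 4 : ℝ) ≤ ((N : ℝ) ^ q) ^ (3 / 4 : ℝ) :=
                Real.rpow_le_rpow hv0 hvq.le (by norm_num)
            _ = (N : ℝ) ^ (3 / 4 * q) := by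
                rw [← Real.rpow_mul hN0.le]
                congr 1
                ring
            _ ≤ _ := Real.rpow_le_rpow_of_exponent_le hN1 hq
        calc (N : ℝ) ^ (3 * γ) * (w * (1 + η0) ^ w * v)
            ≤ (N : ℝ) ^ (3 * γ) * ((N : ℝ) ^ γ * v) :=
              mul_le_mul_of_nonneg_left has (by positivity)
          _ = (N : ℝ) ^ (3 * γ) * (N : ℝ) ^ γ * v ^ (3 / 4 : ℝ) * v ^ (1 / 4 : ℝ) := by
              nth_rewrite 1 [h1]
              ring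
          _ ≤ (N : ℝ) ^ (3 * γ) * (N : ℝ) ^ γ * (N : ℝ) ^ (1 / 2 - 4 * γ) * v ^ (1 / 4 : ℝ) := by
              refine mul_le_mul_of_nonneg_right ?_ (by positivity)
              exact mul_le_mul_of_nonneg_left h2 (by positivity)
          _ = (N : ℝ) ^ (1 / 2 : ℝ) * v ^ (1 / 4 : ℝ) := by
              congr 1
              rw [← Real.rpow_add hN0, ← Real.rpow_add hN0]
              congr 1
              ring

theorem env_asym (κ γ c : ℝ) (m0 : ℕ) (hκ : 0 < κ) (hγ : 0 < γ) (hc : 0 < c) :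
    ∃ N0 : ℕ, ∀ N : ℕ, N0 ≤ N → 1 ≤ N ∧ κ * Real.log N + m0 + 3 ≤ Real.log N ^ 2 ∧
      (m0 : ℝ) + 3 ≤ Real.log N ∧ Real.log N ^ 2 ≤ (N : ℝ) ^ (γ / 2) ∧
      3 * Real.log N ^ 2 ≤ c * N := by
  have hcast : Tendsto (fun N : ℕ => (N : ℝ)) atTop atTop := tendsto_natCast_atTop_atTop
  have h1 : ∀ᶠ N : ℕ in atTop, κ + m0 + 4 ≤ Real.log N :=
    (Real.tendsto_log_atTop.comp hcast).eventually_ge_atTop _
  have h2 : ∀ᶠ N : ℕ in atTop, ‖Real.log (N : ℝ)‖ ≤ 1 * ‖(N : ℝ) ^ (γ / 4)‖ :=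
    hcast.eventually ((isLittleO_log_rpow_atTop (by positivity)).bound one_pos)
  have h3 : ∀ᶠ N : ℕ in atTop, ‖Real.log (N : ℝ)‖ ≤ Real.sqrt (c / 3) * ‖(N : ℝ) ^ (1 / 2 : ℝ)‖ :=
    hcast.eventually ((isLittleO_log_rpow_atTop (by norm_num)).bound
      (Real.sqrt_pos.mpr (by positivity)))
  obtain ⟨N0, hN0⟩ := ((h1.and (h2.and h3)).and (eventually_ge_atTop 1)).exists_forall_of_atTop
  refine ⟨N0, fun N hN => ?_⟩
  obtain ⟨⟨e1, e2, e3⟩, e4⟩ := hN0 N hN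
  have hNp : (0 : ℝ) < N := by exact_mod_cast e4
  have hm0 : (0 : ℝ) ≤ m0 := Nat.cast_nonneg _
  have hL : 1 ≤ Real.log N := by linarith
  rw [Real.norm_of_nonneg (by linarith), Real.norm_of_nonneg (by positivity)] at e2 e3
  rw [one_mul] at e2
  refine ⟨e4, ?_, by linarith, ?_, ?_⟩
  · nlinarith
  · calc Real.log N ^ 2 ≤ ((N : ℝ) ^ (γ / 4)) ^ 2 := pow_le_pow_left₀ (by linarith) e2 2
      _ = (N : ℝ) ^ (γ / 2) := by
        rw [← Real.rpow_natCast, ← Real.rpow_mul hNp.le]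
        congr 1
        push_cast
        ring
  · have : Real.log N ^ 2 ≤ c / 3 * N := by
      calc Real.log N ^ 2 ≤ (Real.sqrt (c / 3) * (N : ℝ) ^ (1 / 2 : ℝ)) ^ 2 :=
            pow_le_pow_left₀ (by linarith) e3 2
        _ = c / 3 * N := by
          rw [mul_pow, Real.sq_sqrt (by positivity), ← Real.rpow_natCast, ← Real.rpow_mul hNp.le]
          norm_num
    linarith

theorem env_union5 {Ω : Type} [MeasurableSpace Ω] (P : Measure Ω) (A1 A2 A3 A4 A5 S : Set Ω)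
    (q : ℝ) (hq : 0 < q) (h1 : P A1 ≤ ENNReal.ofReal q) (h2 : P A2 ≤ ENNReal.ofReal q)
    (h3 : P A3 ≤ ENNReal.ofReal q) (h4 : P A4 ≤ ENNReal.ofReal q) (h5 : P A5 ≤ ENNReal.ofReal q)
    (hS : ∀ ω, ω ∉ A1 → ω ∉ A2 → ω ∉ A3 → ω ∉ A4 → ω ∉ A5 → ω ∉ S) :
    P S ≤ ENNReal.ofReal (5 * q) := by
  have hsub : S ⊆ A1 ∪ (A2 ∪ (A3 ∪ (A4 ∪ A5))) := by
    intro ω hω
    by_contra hcon
    simp only [Set.mem_union, not_or] at hcon
    exact hS ω hcon.1 hcon.2.1 hcon.2.2.1 hcon.2.2.2.1 hcon.2.2.2.2 hω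
  have e : ENNReal.ofReal (5 * q) = ENNReal.ofReal q + (ENNReal.ofReal q + (ENNReal.ofReal q +
      (ENNReal.ofReal q + ENNReal.ofReal q))) := by
    rw [← ENNReal.ofReal_add hq.le hq.le, ← ENNReal.ofReal_add hq.le (by positivity),
      ← ENNReal.ofReal_add hq.le (by positivity), ← ENNReal.ofReal_add hq.le (by positivity)]
    congr 1
    ring
  rw [e]
  refine (measure_mono hsub).trans ?_
  refine (measure_union_le _ _).trans (add_le_add h1 ?_)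
  refine (measure_union_le _ _).trans (add_le_add h2 ?_)
  refine (measure_union_le _ _).trans (add_le_add h3 ?_)
  exact (measure_union_le _ _).trans (add_le_add h4 h5)

theorem st_ENV (hJ : ST_JEN) (hF : ST_EVFAR) (hS : ST_EVSUM) (hNr : ST_EVNEAR) (hM : ST_EVMAX)
    (hE : ST_EXCH) : ST_ENV := by
  intro Ω _ P X s hI hs hms c ηp e0 hc hηp he0
  obtain ⟨θ, hθ0, hθ1, hm1, hmsθ⟩ := hJ Ω P X s hI (by linarith) hms
  obtain ⟨ηq, hηq'⟩ : ∃ ηq : ℝ, ηq = ηp / 5 := ⟨_, rfl⟩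
  have hηq : 0 < ηq := by rw [hηq']; positivity
  obtain ⟨N1, hFar⟩ := hF Ω P X θ hI hθ0 hθ1 hm1 ηq hηq
  obtain ⟨C1, ηm, hC1, hηm, hSum⟩ := hS Ω P X θ hI hθ0 hθ1 hm1 ηq hηq
  obtain ⟨Cs, c1, m0, hCs, hc1, hc1', hNear⟩ := hNr Ω P X θ hI hθ0 hθ1 hm1 ηq e0 hηq he0
  obtain ⟨c2, hc2, hc2', hEx⟩ := hE Ω P X θ hI hθ0 hθ1 hm1 ηq hηq
  -- the exponent
  have hs0 : 0 < s := by linarith
  have hgap : 0 < 1 / 2 - 3 / 4 * (1 / s) := by
    have : 1 / s < 2 / 3 := by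
      rw [div_lt_iff₀ hs0]
      linarith
    linarith
  obtain ⟨γ, hγd⟩ : ∃ γ : ℝ, γ = min (1 / 16) ((1 / 2 - 3 / 4 * (1 / s)) / 7) := ⟨_, rfl⟩
  have hγ : 0 < γ := by
    rw [hγd]
    exact lt_min (by norm_num) (by positivity)
  have hγ1 : γ ≤ 1 / 16 := by rw [hγd]; exact min_le_left _ _
  have hγ2 : 7 * γ ≤ 1 / 2 - 3 / 4 * (1 / s) := by
    have : γ ≤ (1 / 2 - 3 / 4 * (1 / s)) / 7 := by rw [hγd]; exact min_le_right _ _
    linarith
  obtain ⟨N2, hNear'⟩ := hNear γ hγ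
  obtain ⟨N3, hEx'⟩ := hEx γ hγ
  obtain ⟨N4, hMax⟩ := hM Ω P X s θ hI (by linarith) hθ0 hθ1 hmsθ ηq γ hηq hγ
  obtain ⟨κ, hκd⟩ : ∃ κ : ℝ, κ = 15 / Real.log (1 / θ) := ⟨_, rfl⟩
  have hκ : 0 < κ := by
    rw [hκd]
    refine div_pos (by norm_num) (Real.log_pos ?_)
    rw [lt_div_iff₀ hθ0]
    linarith
  obtain ⟨N5, hAs⟩ := env_asym κ γ c m0 hκ hγ hc
  obtain ⟨η0, hη0d⟩ : ∃ η0 : ℝ, η0 = min ηm (min 1 (γ / (2 * (κ + 1)))) := ⟨_, rfl⟩
  have hη0 : 0 < η0 := by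
    rw [hη0d]
    exact lt_min hηm (lt_min one_pos (by positivity))
  have hη0m : η0 ≤ ηm := by rw [hη0d]; exact min_le_left _ _
  have hη01 : η0 ≤ 1 := by rw [hη0d]; exact le_trans (min_le_right _ _) (min_le_left _ _)
  have hη0γ : η0 * (κ + 1) ≤ γ / 2 := by
    have : η0 ≤ γ / (2 * (κ + 1)) := by
      rw [hη0d]
      exact le_trans (min_le_right _ _) (min_le_right _ _)
    calc η0 * (κ + 1) ≤ γ / (2 * (κ + 1)) * (κ + 1) :=
          mul_le_mul_of_nonneg_right this (by positivity)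
      _ = γ / 2 := by field_simp
  refine ⟨γ, η0, Cs, C1, c1, c2, m0, hγ, by linarith, hη0, hη01, hCs, hC1, hc1, hc1', hc2, hc2',
    max (max N1 N2) (max (max N3 N4) N5), ?_⟩
  intro N k hN hk1 hk2
  have hNN1 : N1 ≤ N := le_trans (le_trans (le_max_left _ _) (le_max_left _ _)) hN
  have hNN2 : N2 ≤ N := le_trans (le_trans (le_max_right _ _) (le_max_left _ _)) hN
  have hNN3 : N3 ≤ N :=
    le_trans (le_trans (le_trans (le_max_left _ _) (le_max_left _ _)) (le_max_right _ _)) hN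
  have hNN4 : N4 ≤ N :=
    le_trans (le_trans (le_trans (le_max_right _ _) (le_max_left _ _)) (le_max_right _ _)) hN
  have hNN5 : N5 ≤ N := le_trans (le_trans (le_max_right _ _) (le_max_right _ _)) hN
  obtain ⟨a1, a2, a3, a4, a5⟩ := hAs N hNN5
  have hN1 : (1 : ℝ) ≤ N := by exact_mod_cast a1
  have hN0 : (0 : ℝ) < N := by linarith
  have hm0 : (0 : ℝ) ≤ m0 := Nat.cast_nonneg _
  have hL : 1 ≤ Real.log N := by linarith
  obtain ⟨w, hwd⟩ : ∃ w : ℕ, w = ⌈κ * Real.log N⌉₊ + m0 + 1 := ⟨_, rfl⟩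
  have hwc : (w : ℝ) = (⌈κ * Real.log N⌉₊ : ℝ) + m0 + 1 := by
    rw [hwd]
    push_cast
    rfl
  have hw1 : κ * Real.log N ≤ w := by
    have := Nat.le_ceil (κ * Real.log N)
    linarith
  have hw2 : (w : ℝ) + 1 ≤ κ * Real.log N + m0 + 3 := by
    have := Nat.ceil_lt_add_one (a := κ * Real.log N) (by positivity)
    linarith
  have hwlog : (w : ℝ) ≤ Real.log N ^ 2 := by linarith
  have hm0w : m0 ≤ w := by omega
  have hw0 : 1 ≤ w := by omega
  have hpow : (1 + η0) ^ (w + 1) ≤ (N : ℝ) ^ (γ / 2) := by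
    calc (1 + η0) ^ (w + 1) ≤ (Real.exp η0) ^ (w + 1) := by
          refine pow_le_pow_left₀ (by linarith) ?_ _
          have := Real.add_one_le_exp η0
          linarith
      _ = Real.exp (((w + 1 : ℕ) : ℝ) * η0) := (Real.exp_nat_mul η0 (w + 1)).symm
      _ ≤ Real.exp (Real.log N * (γ / 2)) := by
          refine Real.exp_le_exp.mpr ?_
          push_cast
          have h1 : (w : ℝ) + 1 ≤ (κ + 1) * Real.log N := by linarith
          calc ((w : ℝ) + 1) * η0 ≤ (κ + 1) * Real.log N * η0 :=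
                mul_le_mul_of_nonneg_right h1 hη0.le
            _ = Real.log N * (η0 * (κ + 1)) := by ring
            _ ≤ _ := mul_le_mul_of_nonneg_left hη0γ (by linarith)
      _ = (N : ℝ) ^ (γ / 2) := by rw [Real.rpow_def_of_pos hN0]
  have hkN : k ≤ N := by
    have : (k : ℝ) ≤ N := by nlinarith
    exact_mod_cast this
  have h3w : 3 * w ≤ N - k := by
    have : (3 * w + k : ℝ) ≤ N := by nlinarith
    have h' : 3 * w + k ≤ N := by exact_mod_cast this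
    omega
  have h3w' : N - k + 3 * w ≤ N := by
    have : (3 * w : ℝ) ≤ k := by linarith
    have h' : 3 * w ≤ k := by exact_mod_cast this
    omega
  have htiny : (1 + η0) ^ (w + 1) ≤ (N : ℝ) := by
    refine le_trans hpow ?_
    calc (N : ℝ) ^ (γ / 2) ≤ (N : ℝ) ^ (1 : ℝ) :=
          Real.rpow_le_rpow_of_exponent_le hN1 (by linarith)
      _ = N := Real.rpow_one _
  have hwη : (w : ℝ) * (1 + η0) ^ w ≤ (N : ℝ) ^ γ := by
    calc (w : ℝ) * (1 + η0) ^ w ≤ (N : ℝ) ^ (γ / 2) * (N : ℝ) ^ (γ / 2) := by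
          refine mul_le_mul (le_trans hwlog a4) ?_ (by positivity) (by positivity)
          refine le_trans ?_ hpow
          exact pow_le_pow_right₀ (by linarith) (by omega)
      _ = (N : ℝ) ^ γ := by
          rw [← Real.rpow_add hN0]
          congr 1
          ring
  have hfin : ENNReal.ofReal (5 * ηq) = ENNReal.ofReal ηp := by
    congr 1
    rw [hηq']
    ring
  rw [← hfin]
  refine env_union5 P _ _ _ _ _ _ ηq hηq (hFar N w hNN1 (by rw [← hκd]; exact hw1))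
    (hSum η0 N w hη0 hη0m a1) (hNear' N k w hNN2 hkN h3w h3w' hwlog) (hMax N hNN4)
    (hEx' N w hNN3 hwlog) ?_
  intro ω b1 b2 b3 b4 b5
  simp only [Set.mem_ofPred_eq, not_not] at b1 b2 b3
  rw [Set.mem_ofPred_eq] at b4 b5
  rw [Set.mem_ofPred_eq, not_not]
  obtain ⟨f1, f2, f3⟩ := b1
  obtain ⟨g1, g2⟩ := b2
  obtain ⟨n1, n2, n3, n4, n5⟩ := b3
  obtain ⟨as, has1, hl, hr, halt⟩ := env_det X ω (fun x => hI.rng x ω) N w η0 γ (1 / s + γ) c2 a1
    hw0 hη0 hγ (by linarith) (by linarith) hwη b4 b5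
  refine ⟨w, as, ⟨?_, hkN, f3, f2, f1, htiny, hw0, hwlog, hm0w, h3w, h3w', has1, hl, hr, g1, g2,
    n1, n2, n3, n4, n5⟩, halt⟩
  intro x _ _
  have h1 := hI.rng (x - 1) ω
  have h2 := hI.rng x ω
  refine ⟨h1.1, h1.2, ?_, ?_⟩
  · simp only [lE, EE]
    linarith
  · simp only [lE, EE]
    linarith

end Pool.Agent.Helper98.EX
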