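import Pool.Agent.Helper98.EX.Stmts2

namespace Pool.Agent.Helper98.EX

open Finset

theorem gain_full {N : ℕ} (ξ : Cfg N) (y : ℕ) (h : ∀ i, y ≤ i → i < N → occ ξ i = true) :
    ht ξ y = N - y := by
  unfold ht
  rw [Finset.sum_congr rfl (g := fun _ => 1)]
  · simp
  · intro i hi
    rw [Finset.mem_Ico] at hi
    rw [if_pos (h i hi.1 hi.2)]

theorem gain_sorted {N k m0 : ℕ} (hk : k ≤ N) (ξ : Cfg N)
    (h : ξ ∈ sorted 0 (N - k - m0) (N - k + m0) N) (x : ℕ) :
    min (N - x) (k - m0) ≤ ht ξ x := by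
  obtain ⟨_, h2⟩ := h
  have h3 := gain_full ξ (max x (N - k + m0)) (fun i hi hiN => h2 i (le_trans (le_max_right _ _) hi) hiN)
  have h4 : ht ξ (max x (N - k + m0)) ≤ ht ξ x := ht_anti ξ (le_max_left _ _)
  omega

theorem st_GAIN : ST_GAIN := by
  intro ε c c2 m0 hε hc hc2
  have hμ0 : 0 < min c c2 := lt_min hc hc2
  refine ⟨ε * min c c2 / 8, ⌈2 * (m0 : ℝ) / min c c2⌉₊ + 1, by positivity, ?_⟩
  intro N k r l m1 x hN hk1 hk2 hA hx1 hx2 hpr
  have hN1 : (1 : ℝ) ≤ N := by
    have : 1 ≤ N := by omega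
    exact_mod_cast this
  have hN2 : 2 * (m0 : ℝ) ≤ min c c2 * N := by
    have h1 : 2 * (m0 : ℝ) / min c c2 ≤ N := by
      refine le_trans (Nat.le_ceil _) ?_
      have : ⌈2 * (m0 : ℝ) / min c c2⌉₊ ≤ N := by omega
      exact_mod_cast this
    rw [div_le_iff₀ hμ0] at h1
    linarith
  have hm1 : min c c2 * N ≤ c * N := mul_le_mul_of_nonneg_right (min_le_left _ _) (by linarith)
  have hm2 : min c c2 * N ≤ c2 * N := mul_le_mul_of_nonneg_right (min_le_right _ _) (by linarith)
  have hkN : k ≤ N := by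
    have : (k : ℝ) ≤ N := by nlinarith
    exact_mod_cast this
  have hxN : x ≤ N := by
    have : (x : ℝ) ≤ N := by nlinarith
    exact_mod_cast this
  have hD : 0 ≤ min c c2 * N - m0 := by
    have : (0 : ℝ) ≤ m0 := Nat.cast_nonneg _
    linarith
  have key : ∀ ξ : Cfg N, ht ξ 0 = k →
      (min c c2 * N - m0) * ind (sorted 0 (N - k - m0) (N - k + m0) N) ξ + (ht (bot N k) x : ℝ) ≤
        (ht ξ x : ℝ) := by
    intro ξ hξ
    by_cases hs : ξ ∈ sorted 0 (N - k - m0) (N - k + m0) N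
    · rw [ind_of_mem hs, mul_one, ht_bot hkN]
      have h1 : ((min (N - x) (k - m0) : ℕ) : ℝ) ≤ ht ξ x := by
        exact_mod_cast gain_sorted hkN ξ hs x
      refine le_trans ?_ h1
      rw [Nat.cast_min]
      have h2 : ((N - x : ℕ) : ℝ) = N - x := Nat.cast_sub hxN
      have h3 : (k : ℝ) - m0 ≤ ((k - m0 : ℕ) : ℝ) := by
        have : k ≤ (k - m0) + m0 := by omega
        have : (k : ℝ) ≤ ((k - m0 : ℕ) : ℝ) + m0 := by exact_mod_cast this
        linarith
      have hm0 : (0 : ℝ) ≤ m0 := Nat.cast_nonneg _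
      rw [le_min_iff]
      rcases le_total x k with hxk | hxk
      · have h4 : ((k - x : ℕ) : ℝ) = k - x := Nat.cast_sub hxk
        rw [h4, h2]
        constructor <;> nlinarith
      · have h4 : k - x = 0 := by omega
        rw [h4, h2]
        push_cast
        constructor <;> nlinarith
    · rw [ind_of_not_mem hs, mul_zero, zero_add]
      have := hle_bot hkN hξ x
      exact_mod_cast (by omega : ht (bot N k) x ≤ ht ξ x)
  have hmain := ev_mono_sector hA key (fun _ => full N) m1 (ht_bot_zero (N := N) hkN)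
  rw [ev_add_fun (fun _ => full N) m1
    (fun ξ => (min c c2 * N - m0) * ind (sorted 0 (N - k - m0) (N - k + m0) N) ξ)
    (fun _ => (ht (bot N k) x : ℝ)), ev_const, ev_smul] at hmain
  unfold pr at hpr
  refine le_trans ?_ hmain
  have h5 : (min c c2 * N - m0) * (ε / 4) ≤ (min c c2 * N - m0) *
      ev r l (fun _ => full N) m1 (ind (sorted 0 (N - k - m0) (N - k + m0) N)) (bot N k) :=
    mul_le_mul_of_nonneg_left hpr hD
  nlinarith

end Pool.Agent.Helper98.EX
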