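import Pool.Agent.Helper34.EX.STATTAIL
import Pool.Agent.Helper98.EX.Stmts3

/-!
# MP_157eb8_pr: the top state is hit eventually
-/

set_option autoImplicit false

namespace Pool.Agent.Helper98.EX

open Finset

theorem st_NH0 (hLoc : ST_LOCHIT) : ST_NH0 := by
  intro N k r l e hN hk hA he
  obtain ⟨c, hc0, hc1, hc⟩ := stattail_rmin hA
  set b0 : ℕ := N ^ 2 * ⌈2 * (N : ℝ) / c⌉₊ with hb0
  set δ : ℝ := (c / (4 * ((N : ℝ) + 1))) ^ (N ^ 2) with hδ
  have hx0 : 0 < c / (4 * ((N : ℝ) + 1)) := by positivity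
  have hx1 : c / (4 * ((N : ℝ) + 1)) ≤ 1 := by
    rw [div_le_one (by positivity)]
    have : (0 : ℝ) ≤ N := Nat.cast_nonneg N
    linarith
  have hδ0 : 0 < δ := pow_pos hx0 _
  have hδ1 : δ ≤ 1 := pow_le_one₀ hx0.le hx1
  have hhit : ∀ η : Cfg N, ht η 0 = k → nohit r l (full N) {top N k} b0 η ≤ 1 - δ := by
    intro η hη
    refine hLoc N k r l N b0 c η hN hk hA hη ?_ hc0 hc1 ?_ le_rfl
    · constructor
      · intro i _ hi
        omega
      · intro i hi hi'
        omega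
    · intro b h1 h2 _ _
      exact hc b h1 h2
  obtain ⟨J, hJ⟩ := exists_pow_lt_of_lt_one he (by linarith : 1 - δ < 1)
  refine ⟨J * b0, le_trans ?_ hJ.le⟩
  exact stattail_pow hA (full N) {top N k} b0 (by linarith) hhit J (bot N k) (ht_bot_zero hk)

end Pool.Agent.Helper98.EX
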